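import Mathlib
import Pool.Agent.H.MP_06821b_nt.A

set_option autoImplicit false

namespace Pool.Agent.H.MP_53b42b_nt

open PowerSeries Finset Pool.Agent.Lib.helper11.Mahler Pool.Agent.H.MP_918176_nt

noncomputable def s : ℤ⟦X⟧ := r - 1

noncomputable abbrev E : ℤ⟦X⟧ →ₐ[ℤ] ℤ⟦X⟧ := expand 2 two_ne_zero

noncomputable def B : Subring ℤ⟦X⟧ := Subring.closure {s}

lemma sB : s ∈ B := Subring.subset_closure rfl

lemma r_eq : r = 1 + s := by rw [s]; ring

lemma s_sq : s ^ 2 = 2 * E s * (1 + s) := by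
  have := Pool.Agent.H.MP_06821b_nt.r_sq
  rw [s, map_sub, map_one]
  linear_combination this

lemma s_split : s = E s + X * E (s + 2) := by
  rw [s, map_add, map_sub, map_one, map_ofNat, expand_r, r, g12]
  linear_combination X * g2

lemma split0 (a b : ℤ⟦X⟧) (n : ℕ) : coeff (2 * n) (E a + X * E b) = coeff n a := by
  rw [map_add, coeff_expand_mul]
  rcases n with _ | n
  · simp
  · rw [show 2 * (n + 1) = 2 * n + 1 + 1 by ring, coeff_succ_X_mul,
      coeff_expand_of_not_dvd _ _ _ (by omega), add_zero]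

lemma split1 (a b : ℤ⟦X⟧) (n : ℕ) : coeff (2 * n + 1) (E a + X * E b) = coeff n b := by
  rw [map_add, coeff_succ_X_mul, coeff_expand_mul, coeff_expand_of_not_dvd _ _ _ (by omega),
    zero_add]

def ex (m j : ℕ) : ℕ := if j % 2 = 0 then 2 * m else m

noncomputable def G (m : ℕ) : ℕ → ℕ → ℤ⟦X⟧
  | 0, _ => geo ℤ 1 ^ m
  | N + 1, j => r ^ ex m j * E (G m N (j + 1))

def St (m a j : ℕ) (f : ℤ⟦X⟧) : Prop :=
  ∀ N n, coeff (a + 2 ^ j * n) (G m (N + j) 0) = coeff n (f * G m N j)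

lemma step (m a j : ℕ) (f α β : ℤ⟦X⟧) (h : St m a j f) (e : f * r ^ ex m j = E α + s * E β) :
    St m a (j + 1) (α + s * β) ∧ St m (a + 2 ^ j) (j + 1) ((s + 2) * β) := by
  have key : ∀ N, f * G m (N + 1) j =
      E ((α + s * β) * G m N (j + 1)) + X * E ((s + 2) * β * G m N (j + 1)) := fun N => by
    rw [G, ← mul_assoc, e]
    simp only [map_mul, map_add E α]
    linear_combination E β * E (G m N (j + 1)) * s_split
  refine ⟨fun N n => ?_, fun N n => ?_⟩
  · rw [pow_succ, mul_assoc, show N + (j + 1) = N + 1 + j by ring, h, key, split0]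
  · rw [show a + 2 ^ j + 2 ^ (j + 1) * n = a + 2 ^ j * (2 * n + 1) by ring,
      show N + (j + 1) = N + 1 + j by ring, h, key, split1]

lemma step' (m a j : ℕ) (F α β : ℤ⟦X⟧) (h : St m a j ((s + 2) * F))
    (e : F * r ^ ex m j = E α + s * E β) :
    St m a (j + 1) ((s + 2) * (α + 2 * s * β)) ∧
      St m (a + 2 ^ j) (j + 1) ((s + 2) * (α + 2 * β + 2 * s * β)) := by
  have := step m a j _ (2 * α + 2 * s * β) (α + 2 * β + 2 * s * β) h (by
    rw [mul_assoc, e]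
    simp only [map_mul, map_add, map_ofNat]
    linear_combination E β * s_sq)
  rwa [show 2 * α + 2 * s * β + s * (α + 2 * β + 2 * s * β) = (s + 2) * (α + 2 * s * β) by ring]
    at this

/-! the Hensel step -/

lemma form (g : ℤ⟦X⟧) (hg : g ∈ B) :
    ∃ c : ℤ, ∃ p ∈ B, ∃ q ∈ B, g = E (c + 2 * p) + s * E q := by
  induction hg using Subring.closure_induction with
  | mem x hx => exact ⟨0, 0, zero_mem _, 1, one_mem _, by simpa using hx⟩
  | zero => exact ⟨0, 0, zero_mem _, 0, zero_mem _, by simp⟩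
  | one => exact ⟨1, 0, zero_mem _, 0, zero_mem _, by simp⟩
  | add x y _ _ hx hy =>
    obtain ⟨c, p, hp, q, hq, rfl⟩ := hx
    obtain ⟨d, u, hu, v, hv, rfl⟩ := hy
    refine ⟨c + d, p + u, add_mem hp hu, q + v, add_mem hq hv, ?_⟩
    simp only [map_mul, map_add, map_ofNat, map_intCast, Int.cast_add]
    ring
  | neg x _ hx =>
    obtain ⟨c, p, hp, q, hq, rfl⟩ := hx
    refine ⟨-c, -p, neg_mem hp, -q, neg_mem hq, ?_⟩
    simp only [map_mul, map_add, map_neg, map_ofNat, map_intCast, Int.cast_neg]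
    ring
  | mul x y _ _ hx hy =>
    obtain ⟨c, p, hp, q, hq, rfl⟩ := hx
    obtain ⟨d, u, hu, v, hv, rfl⟩ := hy
    have := sB
    refine ⟨c * d, c * u + d * p + 2 * p * u + s * q * v, by aesop,
      (c + 2 * p) * v + (d + 2 * u) * q + 2 * s * q * v, by aesop, ?_⟩
    simp only [map_mul, map_add, map_ofNat, map_intCast, Int.cast_mul]
    linear_combination E q * E v * s_sq

lemma form_pow (g : ℤ⟦X⟧) (hg : g ∈ B) (a : ℕ) : ∃ c : ℤ, ∃ p ∈ B, ∃ q ∈ B,
    (s + 2 * g) * r ^ (2 * a) = E (2 * c + 4 * p) + s * E (1 + 2 * q) := by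
  induction a with
  | zero =>
    obtain ⟨c, p, hp, q, hq, rfl⟩ := form g hg
    refine ⟨c, p, hp, q, hq, ?_⟩
    simp only [map_mul, map_add, map_ofNat, map_intCast, map_one]
    ring
  | succ a ih =>
    obtain ⟨c, p, hp, q, hq, h⟩ := ih
    have := sB
    refine ⟨c, p + s * (c + 2 * p) + (s + s * s) * (1 + 2 * q), by aesop,
      q + (2 + 2 * s) * (c + 2 * p) + (3 * s + 2 * s * s) * (1 + 2 * q) , by aesop, ?_⟩
    rw [mul_add 2 a, pow_add, ← mul_assoc, h, r_eq]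
    simp only [map_mul, map_add, map_ofNat, map_intCast, map_one]
    linear_combination (2 * c + 4 * E p + (2 + s + 2 * E s) * (1 + 2 * E q)) * s_sq

lemma hensel (m : ℕ) (hm : Even m) (k a j : ℕ) (g : ℤ⟦X⟧) (hg : g ∈ B)
    (h : St m a j ((s + 2) * (2 ^ k * (s + 2 * g)))) : ∃ a' j', ∃ g' ∈ B,
    St m a' j' ((s + 2) * (2 ^ (k + 1) * (s + 2 * g'))) := by
  obtain ⟨b, hb⟩ : ∃ b, ex m j = 2 * b := by
    obtain ⟨t, rfl⟩ := hm
    unfold ex
    split_ifs
    · exact ⟨_, rfl⟩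
    · exact ⟨t, by ring⟩
  obtain ⟨c, p, hp, q, hq, e⟩ := form_pow g hg b
  obtain ⟨h0, h1⟩ := step' m a j _ (2 ^ k * (2 * c + 4 * p)) (2 ^ k * (1 + 2 * q)) h (by
    rw [hb, mul_assoc, e, map_mul E (2 ^ k), map_mul E (2 ^ k), map_pow, map_ofNat]
    ring)
  have := sB
  obtain ⟨d, rfl | rfl⟩ := Int.even_or_odd' c
  · refine ⟨a, j + 1, d + p + s * q, by aesop, ?_⟩
    convert h0 using 2
    push_cast
    ring
  · refine ⟨a + 2 ^ j, j + 1, d + 1 + p + q + s * q, by aesop, ?_⟩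
    convert h1 using 2
    push_cast
    ring

/-! computation modulo 32 -/

noncomputable def ev : List ℕ → ℤ⟦X⟧
  | [] => 0
  | c :: l => c + s * ev l

def ad : List ℕ → List ℕ → List ℕ
  | [], l => l
  | l, [] => l
  | a :: l, b :: k => (a + b) :: ad l k

def db : List ℕ → List ℕ
  | [] => []
  | a :: l => (2 * a) :: db l

def md : List ℕ → List ℕ
  | [] => []
  | a :: l => if a % 32 = 0 ∧ md l = [] then [] else (a % 32) :: md l

lemma ev_mem (l : List ℕ) : ev l ∈ B := by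
  induction l with
  | nil => exact zero_mem _
  | cons a l ih => exact add_mem (natCast_mem _ _) (mul_mem sB ih)

lemma ev_ad (l k : List ℕ) : ev (ad l k) = ev l + ev k := by
  induction l generalizing k with
  | nil => simp [ad, ev]
  | cons a l ih =>
    rcases k with _ | ⟨b, k⟩
    · simp [ad, ev]
    · simp only [ad, ev, ih]
      push_cast
      ring

lemma ev_db (l : List ℕ) : ev (db l) = 2 * ev l := by
  induction l with
  | nil => simp [db, ev]
  | cons a l ih =>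
    simp only [db, ev, ih]
    push_cast
    ring

lemma ev_md (l : List ℕ) : ∃ p ∈ B, ev l = ev (md l) + 32 * p := by
  induction l with
  | nil => exact ⟨0, zero_mem _, by simp [md]⟩
  | cons a l ih =>
    obtain ⟨p, hp, h⟩ := ih
    refine ⟨(a / 32 : ℕ) + s * p, add_mem (natCast_mem _ _) (mul_mem sB hp), ?_⟩
    have h1 : (a : ℤ⟦X⟧) = (a % 32 : ℕ) + 32 * (a / 32 : ℕ) := by
      exact_mod_cast congrArg (Nat.cast : ℕ → ℤ⟦X⟧) (Nat.mod_add_div a 32).symm
    rw [md]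
    split_ifs with h2
    · rw [h2.2] at h
      rw [h2.1] at h1
      simp only [ev, Nat.cast_zero] at *
      linear_combination h1 + s * h
    · simp only [ev]
      linear_combination h1 + s * h

def Rel (g : ℤ⟦X⟧) (x : List ℕ × List ℕ) : Prop :=
  ∃ p ∈ B, ∃ q ∈ B, g = E (ev x.1 + 32 * p) + s * E (ev x.2 + 32 * q)

def mulr (x : List ℕ × List ℕ) : List ℕ × List ℕ :=
  (md (ad x.1 (0 :: db x.2)), md (ad (ad x.1 x.2) (0 :: db x.2)))

def emb : List ℕ → List ℕ × List ℕ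
  | [] => ([], [])
  | c :: l => (c :: db (emb l).2, ad (emb l).1 (0 :: db (emb l).2))

lemma rel_mulr (g : ℤ⟦X⟧) (x : List ℕ × List ℕ) (h : Rel g x) : Rel (g * r) (mulr x) := by
  obtain ⟨p, hp, q, hq, rfl⟩ := h
  obtain ⟨u, hu, h1⟩ := ev_md (ad x.1 (0 :: db x.2))
  obtain ⟨v, hv, h2⟩ := ev_md (ad (ad x.1 x.2) (0 :: db x.2))
  have := sB
  refine ⟨u + p + 2 * s * q, by aesop, v + p + q + 2 * s * q, by aesop, ?_⟩
  simp only [ev_ad, ev, ev_db, Nat.cast_zero] at h1 h2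
  have h3 := congrArg E h1
  have h4 := congrArg E h2
  rw [r_eq]
  simp only [mulr, map_mul, map_add, map_ofNat, map_zero] at *
  linear_combination h3 + s * h4 + (E (ev x.2) + 32 * E q) * s_sq

lemma rel_pow (g : ℤ⟦X⟧) (x : List ℕ × List ℕ) (h : Rel g x) (a : ℕ) :
    Rel (g * r ^ a) (mulr^[a] x) := by
  induction a with
  | zero => simpa using h
  | succ a ih =>
    rw [Function.iterate_succ_apply', pow_succ, ← mul_assoc]
    exact rel_mulr _ _ ih

lemma ev_emb (l : List ℕ) : ev l = E (ev (emb l).1) + s * E (ev (emb l).2) := by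
  induction l with
  | nil => simp [emb, ev]
  | cons a l ih =>
    simp only [emb, ev, ev_ad, ev_db, map_mul, map_add, map_ofNat, map_natCast, Nat.cast_zero,
      map_zero]
    linear_combination s * ih + E (ev (emb l).2) * s_sq

lemma rel_emb (l : List ℕ) (g : ℤ⟦X⟧) (hg : g ∈ B) : Rel (ev l + 32 * g) (emb l) := by
  obtain ⟨c, p, hp, q, hq, rfl⟩ := form g hg
  refine ⟨c + 2 * p, by aesop, q, hq, ?_⟩
  rw [ev_emb l]
  simp only [map_mul, map_add, map_ofNat]
  ring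

lemma r32 (u : ℕ) (g : ℤ⟦X⟧) (x : List ℕ × List ℕ) (h : Rel g x) : Rel (g * r ^ (32 * u)) x := by
  induction u with
  | zero => simpa using h
  | succ u ih =>
    obtain ⟨p, hp, q, hq, h1⟩ := ih
    obtain ⟨a, ha, b, hb, h2⟩ := rel_pow _ _ (rel_emb [1] 0 (zero_mem _)) 32
    rw [show mulr^[32] (emb [1]) = ([1], []) by decide +kernel] at h2
    have := sB
    have := ev_mem x.1
    have := ev_mem x.2
    have h3 : ev x.1 + 32 * p ∈ B := by aesop
    have h4 : ev x.2 + 32 * q ∈ B := by aesop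
    have h5 : 2 * s ∈ B := mul_mem (ofNat_mem _ _) sB
    refine ⟨p + (ev x.1 + 32 * p) * a + 2 * s * (ev x.2 + 32 * q) * b,
      add_mem (add_mem hp (mul_mem h3 ha)) (mul_mem (mul_mem h5 h4) hb),
      q + (ev x.1 + 32 * p) * b + (ev x.2 + 32 * q) * a + 2 * s * (ev x.2 + 32 * q) * b,
      add_mem (add_mem (add_mem hq (mul_mem h3 hb)) (mul_mem h4 ha)) (mul_mem (mul_mem h5 h4) hb),
      ?_⟩
    simp only [ev, Nat.cast_one, mul_zero, add_zero, one_mul, zero_add] at h2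
    rw [mul_add 32 u, pow_add, ← mul_assoc, h1, mul_one, h2]
    simp only [map_mul, map_add, map_ofNat, map_one]
    linear_combination (E (ev x.2) + 32 * E q) * (32 * E b) * s_sq

def nxt (l : List ℕ) (a : ℕ) : List ℕ × List ℕ := mulr^[a % 32] (emb l)

lemma rel_nxt (l : List ℕ) (g : ℤ⟦X⟧) (hg : g ∈ B) (a : ℕ) :
    Rel ((ev l + 32 * g) * r ^ a) (nxt l a) := by
  have := r32 (a / 32) _ _ (rel_pow _ _ (rel_emb l g hg) (a % 32))
  rwa [mul_assoc, ← pow_add, Nat.mod_add_div] at this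

def z0 (l : List ℕ) (a : ℕ) : List ℕ := md (ad (nxt l a).1 (0 :: (nxt l a).2))

def z1 (l : List ℕ) (a : ℕ) : List ℕ := md (ad (nxt l a).1 (0 :: db (nxt l a).2))

lemma st0 (m a j : ℕ) (l : List ℕ) (h : ∃ g ∈ B, St m a j (ev l + 32 * g)) :
    (∃ g ∈ B, St m a (j + 1) (ev (z0 l (ex m j)) + 32 * g)) ∧
    ∃ g ∈ B, St m (a + 2 ^ j) (j + 1) ((s + 2) * (ev (nxt l (ex m j)).2 + 32 * g)) := by
  obtain ⟨g, hg, h⟩ := h
  obtain ⟨p, hp, q, hq, e⟩ := rel_nxt l g hg (ex m j)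
  obtain ⟨h0, h1⟩ := step m a j _ _ _ h e
  obtain ⟨u, hu, h2⟩ := ev_md (ad (nxt l (ex m j)).1 (0 :: (nxt l (ex m j)).2))
  have := sB
  refine ⟨⟨u + p + s * q, by aesop, ?_⟩, q, hq, h1⟩
  convert h0 using 1
  simp only [ev_ad, ev, Nat.cast_zero] at h2
  rw [z0]
  linear_combination -h2

lemma st1 (m a j : ℕ) (l : List ℕ) (h : ∃ g ∈ B, St m a j ((s + 2) * (ev l + 32 * g))) :
    ∃ g ∈ B, St m a (j + 1) ((s + 2) * (ev (z1 l (ex m j)) + 32 * g)) := by
  obtain ⟨g, hg, h⟩ := h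
  obtain ⟨p, hp, q, hq, e⟩ := rel_nxt l g hg (ex m j)
  obtain ⟨h0, -⟩ := step' m a j _ _ _ h e
  obtain ⟨u, hu, h2⟩ := ev_md (ad (nxt l (ex m j)).1 (0 :: db (nxt l (ex m j)).2))
  have := sB
  refine ⟨u + p + 2 * s * q, by aesop, ?_⟩
  convert h0 using 2
  simp only [ev_ad, ev, ev_db, Nat.cast_zero] at h2
  rw [z1]
  linear_combination -h2

lemma nxt_mod (l : List ℕ) (a : ℕ) : nxt l a = nxt l (a % 32) := by simp [nxt]

lemma base (m : ℕ) (hm : m % 8 = 6) :
    ∃ a j, ∃ g ∈ B, St m a j ((s + 2) * (2 ^ 4 * (s + 2 * g))) := by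
  have h0 : ∃ g ∈ B, St m 0 0 (ev [1] + 32 * g) := ⟨0, zero_mem _, fun N n => by simp [ev]⟩
  have h2 := (st0 _ _ _ _ (st0 _ _ _ _ h0).1).1
  have h4 := st1 _ _ _ _ (st0 _ _ _ _ h2).2
  have h6 := st1 _ _ _ _ (st0 _ _ _ _ (st0 _ _ _ _ (st0 _ _ _ _ h2).1).1).2
  have fin : ∀ a j, (∃ g ∈ B, St m a j ((s + 2) * (ev [0, 16] + 32 * g))) →
      ∃ a j, ∃ g ∈ B, St m a j ((s + 2) * (2 ^ 4 * (s + 2 * g))) := by
    rintro a j ⟨g, hg, h⟩
    refine ⟨a, j, g, hg, ?_⟩
    convert h using 2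
    simp only [ev]
    push_cast
    ring
  simp only [ex, zero_add, Nat.reduceAdd, Nat.reduceMod, if_true, one_ne_zero, if_false, z0, z1,
    nxt_mod _ m, nxt_mod _ (2 * m)] at h4 h6
  obtain h | h | h | h : m % 32 = 6 ∨ m % 32 = 14 ∨ m % 32 = 22 ∨ m % 32 = 30 := by omega
  · rw [h, show 2 * m % 32 = 12 by omega] at h6
    exact fin _ _ (by convert h6; decide +kernel)
  · rw [h, show 2 * m % 32 = 28 by omega] at h4
    exact fin _ _ (by convert h4; decide +kernel)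
  · rw [h, show 2 * m % 32 = 12 by omega] at h6
    exact fin _ _ (by convert h6; decide +kernel)
  · rw [h, show 2 * m % 32 = 28 by omega] at h4
    exact fin _ _ (by convert h4; decide +kernel)

lemma all (m : ℕ) (hm : m % 8 = 6) (k : ℕ) :
    ∃ a j, ∃ g ∈ B, St m a j ((s + 2) * (2 ^ (k + 4) * (s + 2 * g))) := by
  induction k with
  | zero => exact base m hm
  | succ k ih =>
    obtain ⟨a, j, g, hg, h⟩ := ih
    exact hensel m (Nat.even_iff.mpr (by omega)) _ a j g hg h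

noncomputable def HH (m N : ℕ) : ℤ⟦X⟧ := geo ℤ 1 ^ m * ∏ i ∈ range N, geo ℤ (4 ^ i) ^ (m * 3)

lemma G_eq (m N i : ℕ) : G m (2 * N) (2 * i) = HH m N := by
  induction N generalizing i with
  | zero => simp [G, HH]
  | succ N ih =>
    have h1 : r * geo ℤ 2 = geo ℤ 1 ^ 2 := by
      rw [r]
      linear_combination (-geo ℤ 1) * g12
    have h2 := congrArg E h1
    simp only [map_mul, map_pow, expand_geo] at h2
    have h3 : r ^ 2 * E r * geo ℤ 4 = geo ℤ 1 * geo ℤ 1 ^ 3 := by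
      linear_combination r ^ 2 * h2 + (r * geo ℤ 2 + geo ℤ 1 ^ 2) * h1
    rw [show 2 * (N + 1) = 2 * N + 1 + 1 by ring, G, G, show 2 * i + 1 + 1 = 2 * (i + 1) by ring, ih,
      ex, ex, if_pos (by omega), if_neg (by omega), HH, HH, prod_range_succ']
    simp only [map_mul, map_pow, map_prod, expand_geo, ← mul_assoc, Nat.reduceMul, ← pow_succ',
      pow_zero]
    rw [pow_mul r, ← mul_pow, ← mul_pow, h3]
    ring

theorem main (m : ℕ) (hm : m % 8 = 6) (k : ℕ) : ∃ n, 4 ^ k ∣ coeff n (HH m (n + 1)) := by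
  obtain ⟨a, j, g, -, h⟩ := all m hm (2 * k)
  have h1 := h (2 * a + 2 + j) 0
  rw [mul_zero, add_zero, show 2 * a + 2 + j + j = 2 * (a + 1 + j) by ring,
    show G m (2 * (a + 1 + j)) 0 = _ from G_eq m _ 0, HH, coeff_prod_stable 4 _ a (by norm_num) _
    (a + 1) _ ((Nat.lt_succ_self a).trans (Nat.lt_pow_self (by norm_num))) (by omega), ← HH,
    mul_left_comm, mul_assoc, show (2 : ℤ⟦X⟧) ^ (2 * k + 4) = ((4 ^ k * 16 : ℤ) : ℤ⟦X⟧) by
      push_cast; rw [pow_add, pow_mul]; norm_num, ← zsmul_eq_mul, map_zsmul, smul_eq_mul] at h1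
  exact ⟨a, h1 ▸ (dvd_mul_right _ _).mul_right _⟩

end Pool.Agent.H.MP_53b42b_nt
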